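import Pool.Agent.Lib.H45G.Odd

/-!
# H45G: the inequality of the question for families with symmetries
-/

set_option autoImplicit false

namespace Pool.Agent.Lib.H45G

variable {V C ι : Type*} [Fintype V] [DecidableEq V] [DecidableEq C] [Fintype ι]

variable (F : ι → V → V → C) (hF : ∀ i, OF (F i))
  (ho : ∀ i j, i ≠ j → Ortho (F i) (F j))

include hF ho in
theorem even_half (hV : 10 ≤ Fintype.card V) (h : 2 ∣ Nat.card (Grp F)) :
    2 * Fintype.card ι + 2 ≤ Fintype.card V := by
  have h := even_order F hF ho (by omega) h
  by_contra hcon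
  have h5 : 5 ≤ Fintype.card ι := by omega
  have h7 : Fintype.card ι * Fintype.card ι < 5 * Fintype.card ι := by omega
  have h8 := Nat.lt_of_mul_lt_mul_right h7
  omega

include hF ho in
/-- A common automorphism without fixed points. -/
theorem free_half (hV : 10 ≤ Fintype.card V) {g : Equiv.Perm V} (hg : g ∈ Grp F)
    (hfree : ∀ x, g x ≠ x) : 2 * Fintype.card ι + 2 ≤ Fintype.card V := by
  classical
  have hne : Nonempty V := Fintype.card_pos_iff.1 (by omega)
  obtain ⟨x₀⟩ := hne
  by_cases h2 : 2 ∣ orderOf g
  · apply even_half F hF ho hV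
    have h3 : orderOf (⟨g, hg⟩ : Grp F) = orderOf g := Subgroup.orderOf_mk g hg
    rw [← h3] at h2
    exact h2.trans (orderOf_dvd_natCard _)
  · have hn1 : orderOf g ≠ 1 := by
      intro h
      rw [orderOf_eq_one_iff] at h
      rw [h] at hfree
      exact hfree x₀ rfl
    obtain ⟨p, hp, hpn⟩ := Nat.exists_prime_and_dvd hn1
    have hp2 : p ≠ 2 := by
      rintro rfl
      exact h2 hpn
    set m := orderOf g / p with hm
    have hmp : m * p = orderOf g := Nat.div_mul_cancel hpn
    have hpos : 0 < orderOf g := orderOf_pos g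
    have hmem : g ^ m ∈ Grp F := (Grp F).pow_mem hg m
    have hpow : (g ^ m) ^ p = 1 := by rw [← pow_mul, hmp, pow_orderOf_eq_one]
    have hm1 : g ^ m ≠ 1 := by
      intro h
      have h3 := orderOf_dvd_of_pow_eq_one h
      have hmpos : 0 < m := by
        rcases Nat.eq_zero_or_pos m with h | h
        · rw [h, zero_mul] at hmp
          omega
        · exact h
      have h4 := Nat.le_of_dvd hmpos h3
      have h5 := hp.two_le
      nlinarith
    by_cases hf : ∀ x, (g ^ m) x ≠ x
    · have h3 := free_odd F hF ho hmem hp hp2 hpow hf ⟨x₀⟩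
      have h4 : 3 ≤ p := by
        have := hp.two_le
        omega
      have h5 : (Fintype.card ι + 1) * 2 ≤ (Fintype.card ι + 1) * (p - 1) :=
        Nat.mul_le_mul_left _ (by omega)
      omega
    · push Not at hf
      obtain ⟨x, hx⟩ := hf
      have hcomm : ∀ y, (g ^ m) (g y) = g ((g ^ m) y) := by
        intro y
        rw [← Equiv.Perm.mul_apply, ← Equiv.Perm.mul_apply, ← pow_succ, ← pow_succ']
      have hy : (g ^ m) (g x) = g x := by rw [hcomm, hx]
      have hz : (g ^ m) (g (g x)) = g (g x) := by rw [hcomm, hy]
      have hxy : x ≠ g x := Ne.symm (hfree x)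
      have hzy : g (g x) ≠ g x := hfree (g x)
      have hzx : g (g x) ≠ x := by
        intro h
        have h3 : ∀ n : ℕ, (g ^ (2 * n)) x = x := by
          intro n
          induction n with
          | zero => rfl
          | succ n ih =>
            have : 2 * (n + 1) = 2 + 2 * n := by ring
            rw [this, pow_add, Equiv.Perm.mul_apply, ih, sq, Equiv.Perm.mul_apply, h]
        have hodd : orderOf g = 1 + 2 * (orderOf g / 2) := by omega
        have h4 : (g ^ orderOf g) x = x := by rw [pow_orderOf_eq_one]; rfl
        rw [hodd, pow_add, Equiv.Perm.mul_apply, h3, pow_one] at h4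
        exact hfree x h4
      rcases three_fixed F hF ho hmem hm1 hxy hzx hzy hx hy hz with h | h
      · omega
      · have h' := (sq_bound h).1
        omega

end Pool.Agent.Lib.H45G
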