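import Mathlib

/-!
# H45G: pairwise orthogonal one-factorizations with a common automorphism
-/

set_option autoImplicit false

namespace Pool.Agent.Lib.H45G

variable {V C ι : Type*}

/-- `F` colours the pairs of different points of `V` such that the colour classes are perfect
matchings (a one-factorization): the colours at a point are distinct, and every colour which occurs
occurs at every point. -/
structure OF (F : V → V → C) : Prop where
  symm : ∀ a b, F a b = F b a
  inj : ∀ a b c, a ≠ b → a ≠ c → F a b = F a c → b = c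
  ex : ∀ a b u, a ≠ b → u ≠ a → u ≠ b → ∃ w, w ≠ u ∧ F u w = F a b

/-- Orthogonality: two different edges do not have equal colours in both colourings. -/
def Ortho (F F' : V → V → C) : Prop :=
  ∀ a b c d, a ≠ b → c ≠ d → F a b = F c d → F' a b = F' c d → (a = c ∧ b = d) ∨ (a = d ∧ b = c)

/-- The group of the common automorphisms: the permutations of the points which map colour
classes to colour classes, for every member of the family. -/
def Grp (F : ι → V → V → C) : Subgroup (Equiv.Perm V) where
  carrier := {g | ∀ i a b c d, a ≠ b → c ≠ d →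
    (F i a b = F i c d ↔ F i (g a) (g b) = F i (g c) (g d))}
  one_mem' := fun i a b c d _ _ => Iff.rfl
  mul_mem' := by
    intro g h hg hh i a b c d hab hcd
    rw [hh i a b c d hab hcd]
    exact hg i _ _ _ _ (fun e => hab (h.injective e)) (fun e => hcd (h.injective e))
  inv_mem' := by
    intro g hg i a b c d hab hcd
    have h := hg i (g⁻¹ a) (g⁻¹ b) (g⁻¹ c) (g⁻¹ d) (fun e => hab ((g⁻¹).injective e))
      (fun e => hcd ((g⁻¹).injective e))
    have e : ∀ x, g (g⁻¹ x) = x := fun x => g.apply_symm_apply x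
    rw [e, e, e, e] at h
    exact h.symm

variable {F : ι → V → V → C}

theorem grp_app {g : Equiv.Perm V} (hg : g ∈ Grp F) {i : ι} {a b c d : V} (hab : a ≠ b)
    (hcd : c ≠ d) (h : F i a b = F i c d) : F i (g a) (g b) = F i (g c) (g d) :=
  (hg i a b c d hab hcd).1 h

theorem sq_bound {k v : ℕ} (h : (k + 1) ^ 2 + 4 ≤ v) :
    2 * k + 5 ≤ v ∧ k * k ≤ 3 * k + (v - 2) := by
  have h1 : (k + 1) ^ 2 = k * k + 2 * k + 1 := by ring
  constructor
  · have h2 : 0 ≤ k * k := Nat.zero_le _
    omega
  · omega

section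
variable [Fintype V] [DecidableEq V] [Fintype ι] (F) (hF : ∀ i, OF (F i))
  (ho : ∀ i j, i ≠ j → Ortho (F i) (F j))

include hF in
theorem partner {i : ι} {a b u : V} (hab : a ≠ b) (hua : u ≠ a) (hub : u ≠ b) :
    ∃ w, w ≠ u ∧ w ≠ a ∧ w ≠ b ∧ F i u w = F i a b := by
  obtain ⟨w, hw, h⟩ := (hF i).ex a b u hab hua hub
  refine ⟨w, hw, ?_, ?_, h⟩
  · rintro rfl
    rw [(hF i).symm] at h
    exact hub ((hF i).inj _ _ _ (Ne.symm hua) hab h)
  · rintro rfl
    rw [(hF i).symm, (hF i).symm a] at h
    exact hua ((hF i).inj _ _ _ (Ne.symm hub) (Ne.symm hab) h)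

include hF ho

/-- The basic count. -/
theorem card_bound {a b u : V} (hab : a ≠ b) (hua : u ≠ a) (hub : u ≠ b) (W : Finset V)
    (ha : a ∉ W) (hb : b ∉ W) (hu : u ∉ W) (hW : ∀ i, ∀ w ∈ W, F i u w ≠ F i a b) :
    Fintype.card ι + W.card + 3 ≤ Fintype.card V := by
  classical
  have hex : ∀ i, ∃ w, w ≠ u ∧ w ≠ a ∧ w ≠ b ∧ F i u w = F i a b := fun i =>
    partner F hF hab hua hub
  choose p hpu hpa hpb hp using hex
  have h1 : (Finset.univ : Finset ι).card ≤ (insert a (insert b (insert u W)))ᶜ.card := by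
    apply Finset.card_le_card_of_injOn p
    · intro i _
      simp only [Finset.coe_compl, Finset.coe_insert, Set.mem_compl_iff, Set.mem_insert_iff,
        Finset.mem_coe, not_or]
      exact ⟨hpa i, hpb i, hpu i, fun h => hW i _ h (hp i)⟩
    · intro i _ j _ h
      by_contra hne
      have h2 := hp j
      rw [← h] at h2
      rcases ho i j hne u (p i) a b (Ne.symm (hpu i)) hab (hp i) h2 with ⟨e, _⟩ | ⟨e, _⟩
      · exact hua e
      · exact hub e
  have h2 := Finset.card_add_card_compl (insert a (insert b (insert u W)))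
  rw [Finset.card_insert_of_notMem, Finset.card_insert_of_notMem,
    Finset.card_insert_of_notMem hu] at h2
  · rw [Finset.card_univ] at h1
    omega
  · simp [Ne.symm hub, hb]
  · simp [hab, Ne.symm hua, ha]

/-- An automorphism with three fixed points. -/
theorem three_fixed {g : Equiv.Perm V} (hg : g ∈ Grp F) (hg1 : g ≠ 1) {a b u : V} (hab : a ≠ b)
    (hua : u ≠ a) (hub : u ≠ b) (ha : g a = a) (hb : g b = b) (hu : g u = u) :
    Fintype.card ι = 0 ∨ (Fintype.card ι + 1) ^ 2 + 4 ≤ Fintype.card V := by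
  classical
  rcases isEmpty_or_nonempty ι with he | ⟨⟨i₀⟩⟩
  · left; exact Fintype.card_eq_zero
  right
  set X : Finset V := Finset.univ.filter fun x => g x = x with hX
  have hmem : ∀ x, x ∈ X ↔ g x = x := fun x => by simp [hX]
  obtain ⟨z, hz⟩ : ∃ z, g z ≠ z := by
    by_contra hcon
    push Not at hcon
    exact hg1 (Equiv.ext hcon)
  have hzX : z ∉ X := fun h => hz ((hmem z).1 h)
  have hza : z ≠ a := fun h => hz (h ▸ ha)
  -- the partners of `u` are fixed
  have h3 := card_bound F hF ho hab hua hub Xᶜ (by simpa using (hmem a).2 ha)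
    (by simpa using (hmem b).2 hb) (by simpa using (hmem u).2 hu) (by
      intro i w hw h
      have hwX : w ∉ X := by simpa using hw
      have hwu : w ≠ u := fun e => hwX (e ▸ (hmem u).2 hu)
      have h5 := grp_app hg (Ne.symm hwu) hab h
      rw [ha, hb, hu, ← h] at h5
      have h6 : u ≠ g w := fun e => hwu (g.injective (by rw [hu, ← e]))
      exact hwX ((hmem w).2 ((hF i).inj _ _ _ h6 (Ne.symm hwu) h5)))
  have h4 := Finset.card_add_card_compl X
  -- the partners of `z` in the factors with an edge between fixed points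
  have hex : ∀ (i : ι) (x : V), ∃ w, (x ∈ X → x ≠ a → w ≠ z ∧ w ∉ X ∧ F i z w = F i a x) := by
    intro i x
    by_cases hx : x ∈ X ∧ x ≠ a
    · have hzx : z ≠ x := fun e => hzX (e ▸ hx.1)
      obtain ⟨w, h1, h2, h3, h4⟩ := partner F hF (i := i) (Ne.symm hx.2) hza hzx
      refine ⟨w, fun _ _ => ⟨h1, fun hw => ?_, h4⟩⟩
      have h5 := grp_app hg (Ne.symm h1) (Ne.symm hx.2) h4
      rw [ha, (hmem x).1 hx.1, (hmem w).1 hw, ← h4, (hF i).symm, (hF i).symm z] at h5
      refine hz ((hF i).inj w _ _ (fun e => h1 (g.injective ?_)) h1 h5)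
      rw [(hmem w).1 hw]
      exact e
    · exact ⟨x, fun h h' => absurd ⟨h, h'⟩ hx⟩
  choose q hq using hex
  set P : ι → Finset V := fun i => ((X.erase a).image (q i)).erase (g z) with hP
  have hPcard : ∀ i, X.card ≤ (P i).card + 2 := by
    intro i
    have h1 : ((X.erase a).image (q i)).card = (X.erase a).card := by
      apply Finset.card_image_of_injOn
      intro x hx y hy h
      rw [Finset.coe_erase, Set.mem_sdiff, Finset.mem_coe, Set.mem_singleton_iff] at hx hy
      have e1 := (hq i x hx.1 hx.2).2.2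
      have e2 := (hq i y hy.1 hy.2).2.2
      rw [h, e2] at e1
      exact (hF i).inj _ _ _ (Ne.symm hx.2) (Ne.symm hy.2) e1.symm
    have h2 := Finset.pred_card_le_card_erase (s := (X.erase a).image (q i)) (a := g z)
    rw [h1, Finset.card_erase_of_mem ((hmem a).2 ha)] at h2
    have h5 : 1 ≤ X.card := Finset.card_pos.2 ⟨a, (hmem a).2 ha⟩
    simp only [hP]
    omega
  have hPdisj : ∀ i j, i ≠ j → Disjoint (P i) (P j) := by
    intro i j hij
    rw [Finset.disjoint_left]
    intro y hy hy'
    simp only [hP, Finset.mem_erase, Finset.mem_image] at hy hy'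
    obtain ⟨hyz, x, ⟨hxa, hx⟩, rfl⟩ := hy
    obtain ⟨_, x', ⟨hxa', hx'⟩, e⟩ := hy'
    obtain ⟨e1, _, e3⟩ := hq i x hx hxa
    obtain ⟨_, _, e3'⟩ := hq j x' hx' hxa'
    rw [e] at e3'
    have h5 := grp_app hg (Ne.symm e1) (Ne.symm hxa) e3
    have h6 := grp_app hg (Ne.symm e1) (Ne.symm hxa') e3'
    rw [ha, (hmem x).1 hx, ← e3] at h5
    rw [ha, (hmem x').1 hx', ← e3'] at h6
    rcases ho i j hij (g z) (g (q i x)) z (q i x) (fun e => e1 (g.injective e).symm)
      (Ne.symm e1) h5 h6 with ⟨e4, _⟩ | ⟨e4, _⟩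
    · exact hz e4
    · exact hyz e4.symm
  have hgzX : g z ∉ X := fun h => hz (g.injective ((hmem _).1 h))
  have hPsub : ∀ i, Disjoint (P i) (insert z (insert (g z) X)) := by
    intro i
    rw [Finset.disjoint_left]
    intro y hy hy'
    simp only [hP, Finset.mem_erase, Finset.mem_image] at hy
    obtain ⟨hyz, x, ⟨hxa, hx⟩, rfl⟩ := hy
    obtain ⟨e1, e2, _⟩ := hq i x hx hxa
    simp only [Finset.mem_insert] at hy'
    rcases hy' with h | h | h
    · exact e1 h
    · exact hyz h
    · exact e2 h
  have h6 : (Finset.univ.biUnion P ∪ insert z (insert (g z) X)).card ≤ Fintype.card V :=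
    Finset.card_le_univ _
  rw [Finset.card_union_of_disjoint (by
    rw [Finset.disjoint_biUnion_left]
    exact fun i _ => hPsub i), Finset.card_biUnion (fun i _ j _ hij => hPdisj i j hij),
    Finset.card_insert_of_notMem (by
      rw [Finset.mem_insert, not_or]
      exact ⟨Ne.symm hz, hzX⟩), Finset.card_insert_of_notMem hgzX] at h6
  have h7 : Fintype.card ι * (X.card - 2) ≤ ∑ i : ι, (P i).card := by
    rw [← Finset.card_univ (α := ι), ← smul_eq_mul, ← Finset.sum_const]
    refine Finset.sum_le_sum fun i _ => ?_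
    have := hPcard i
    omega
  have h8 : Fintype.card ι + 3 ≤ X.card := by omega
  have h9 : Fintype.card ι * (Fintype.card ι + 1) ≤ Fintype.card ι * (X.card - 2) :=
    Nat.mul_le_mul_left _ (by omega)
  have h10 : (Fintype.card ι + 1) ^ 2 = Fintype.card ι * (Fintype.card ι + 1) +
      (Fintype.card ι + 1) := by ring
  omega

/-- A common involution with a fixed point. -/
theorem involution_fixed {g : Equiv.Perm V} (hg : g ∈ Grp F) (hg1 : g ≠ 1)
    (hg2 : ∀ x, g (g x) = x) {a : V} (ha : g a = a) :
    Fintype.card ι ≤ 1 ∨ (Fintype.card ι + 1) ^ 2 + 4 ≤ Fintype.card V := by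
  classical
  by_cases h : ∃ b u, a ≠ b ∧ u ≠ a ∧ u ≠ b ∧ g b = b ∧ g u = u
  · obtain ⟨b, u, hab, hua, hub, hb, hu⟩ := h
    rcases three_fixed F hF ho hg hg1 hab hua hub ha hb hu with h | h
    · left; omega
    · right; exact h
  · left
    push Not at h
    obtain ⟨z, hz⟩ : ∃ z, g z ≠ z := by
      by_contra hcon
      push Not at hcon
      exact hg1 (Equiv.ext hcon)
    have haz : a ≠ z := fun e => hz (e ▸ ha)
    have hagz : a ≠ g z := fun e => haz (g.injective (by rw [ha, ← e]))
    have key : ∀ i, ∃ w, w ≠ a ∧ g w = w ∧ F i a w = F i z (g z) := by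
      intro i
      obtain ⟨w, h1, h2, h3, h4⟩ := partner F hF (i := i) (Ne.symm hz) haz hagz
      refine ⟨w, h1, ?_, h4⟩
      have h5 := grp_app hg (Ne.symm h1) (Ne.symm hz) h4
      rw [ha, hg2, (hF i).symm (g z), ← h4] at h5
      exact (hF i).inj _ _ _ (fun e => h1 (g.injective (by rw [ha, ← e]))) (Ne.symm h1) h5
    rw [Fintype.card_le_one_iff]
    intro i j
    obtain ⟨w, h1, h2, h3⟩ := key i
    obtain ⟨w', h1', h2', h3'⟩ := key j
    have hww : w = w' := by
      by_contra hne
      exact h w w' (Ne.symm h1) h1' (fun e => hne e.symm) h2 h2'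
    subst hww
    by_contra hne
    rcases ho i j hne a w z (g z) (Ne.symm h1) (Ne.symm hz) h3 h3' with ⟨e, _⟩ | ⟨e, _⟩
    · exact haz e
    · exact hagz e

/-- The orbit bound, for groups without involutions and without elements `≠ 1` fixing three
points. -/
theorem orbit_bound {a b u : V} (hab : a ≠ b) (hua : u ≠ a) (hub : u ≠ b) (O : Finset V)
    (hO : ∀ w ∈ O, ∃ g ∈ Grp F, g a = a ∧ g b = b ∧ g u = w) (huO : u ∈ O)
    (h3 : ∀ g ∈ Grp F, g a = a → g b = b → g u = u → g = 1)
    (h2 : ∀ g ∈ Grp F, g * g = 1 → g = 1) :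
    Fintype.card ι + O.card + 2 ≤ Fintype.card V := by
  classical
  have h := card_bound F hF ho hab hua hub (O.erase u)
    (by
      intro h
      obtain ⟨g, _, h1, _, h3⟩ := hO a (Finset.mem_of_mem_erase h)
      exact hua (g.injective (h3.trans h1.symm)))
    (by
      intro h
      obtain ⟨g, _, _, h2, h3⟩ := hO b (Finset.mem_of_mem_erase h)
      exact hub (g.injective (h3.trans h2.symm)))
    (Finset.notMem_erase u O)
    (by
      intro i w hw h
      have hwu : w ≠ u := Finset.ne_of_mem_erase hw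
      obtain ⟨g, hg, hga, hgb, hgu⟩ := hO w (Finset.mem_of_mem_erase hw)
      have h5 := grp_app hg (Ne.symm hwu) hab h
      rw [hga, hgb, hgu, ← h, (hF i).symm u] at h5
      have h6 : w ≠ g w := fun e => hwu (g.injective (e.symm.trans hgu.symm))
      have h7 : g w = u := (hF i).inj _ _ _ h6 hwu h5
      have h8 : g * g = 1 := by
        apply h3 _ ((Grp F).mul_mem hg hg)
        · rw [Equiv.Perm.mul_apply, hga, hga]
        · rw [Equiv.Perm.mul_apply, hgb, hgb]
        · rw [Equiv.Perm.mul_apply, hgu, h7]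
      have h9 := h2 g hg h8
      rw [h9] at hgu
      exact hwu (by simpa using hgu.symm))
  rw [Finset.card_erase_of_mem huO] at h
  have : 1 ≤ O.card := Finset.card_pos.2 ⟨u, huO⟩
  omega

/-- A common automorphism with a fixed point. -/
theorem fixed_aut (hV : 6 ≤ Fintype.card V) {g : Equiv.Perm V} (hg : g ∈ Grp F) (hg1 : g ≠ 1)
    {p : V} (hp : g p = p) : Fintype.card ι + 4 ≤ Fintype.card V := by
  classical
  by_cases h : ∃ b u, p ≠ b ∧ u ≠ p ∧ u ≠ b ∧ g b = b ∧ g u = u
  · obtain ⟨b, u, hab, hua, hub, hb, hu⟩ := h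
    rcases three_fixed F hF ho hg hg1 hab hua hub hp hb hu with h | h
    · omega
    · have h' := sq_bound h
      omega
  push Not at h
  by_cases hinv : ∀ x, g (g x) = x
  · rcases involution_fixed F hF ho hg hg1 hinv hp with h | h
    · omega
    · have h' := sq_bound h
      omega
  push Not at hinv
  by_cases hc : ∃ c, c ≠ p ∧ g c = c
  · obtain ⟨c, hcp, hc⟩ := hc
    obtain ⟨x, hx⟩ := hinv
    have hgx : g x ≠ x := fun h => hx (by rw [h, h])
    have hxp : p ≠ x := fun h => hgx (by rw [← h, hp])
    have hgxp : p ≠ g x := fun h => hxp (g.injective (by rw [hp, ← h]))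
    have hxc : c ≠ x := fun h => hgx (by rw [← h, hc])
    have hgxc : c ≠ g x := fun h => hxc (g.injective (by rw [hc, ← h]))
    have h3 := card_bound F hF ho (Ne.symm hgx) hxp hgxp {c}
      (by simpa using Ne.symm hxc) (by simpa using Ne.symm hgxc) (by simpa using Ne.symm hcp)
      (by
        intro i w hw h
        rw [Finset.mem_singleton] at hw
        subst hw
        have h5 := grp_app hg (Ne.symm hcp) (Ne.symm hgx) h
        rw [hp, hc, h, (hF i).symm x] at h5
        exact hx ((hF i).inj _ _ _ (fun e => hgx (g.injective e).symm) hgx h5.symm))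
    rw [Finset.card_singleton] at h3
    omega
  · push Not at hc
    obtain ⟨x, hx⟩ : ∃ x, x ∉ ({p} : Finset V) := by
      by_contra hcon
      push Not at hcon
      have h1 : (Finset.univ : Finset V) ⊆ {p} := fun x _ => hcon x
      have h2 := Finset.card_le_card h1
      rw [Finset.card_univ, Finset.card_singleton] at h2
      omega
    rw [Finset.mem_singleton] at hx
    obtain ⟨y, hy⟩ : ∃ y, y ∉ ({p, x, g x, g⁻¹ x} : Finset V) := by
      by_contra hcon
      push Not at hcon
      have h1 : (Finset.univ : Finset V) ⊆ {p, x, g x, g⁻¹ x} := fun x _ => hcon x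
      have h2 := (Finset.card_le_card h1).trans Finset.card_le_four
      rw [Finset.card_univ] at h2
      omega
    simp only [Finset.mem_insert, Finset.mem_singleton, not_or] at hy
    obtain ⟨hyp, hyx, hygx, hyg⟩ := hy
    have hgx := hc x hx
    have hgy := hc y hyp
    have hxy : x ≠ y := Ne.symm hyx
    have h3 := card_bound F hF ho hxy hgx (Ne.symm hygx) {g y}
      (by
        rw [Finset.mem_singleton]
        intro h
        exact hyg (by rw [h]; exact (g.symm_apply_apply y).symm))
      (by rw [Finset.mem_singleton]; exact Ne.symm hgy)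
      (by
        rw [Finset.mem_singleton]
        exact fun h => hxy (g.injective h))
      (by
        intro i w hw h
        rw [Finset.mem_singleton] at hw
        subst hw
        obtain ⟨w, h1, h2, h3, h4⟩ := partner F hF (i := i) hxy (Ne.symm hx) (Ne.symm hyp)
        have h5 := grp_app hg (Ne.symm h1) hxy h4
        rw [hp, h, ← h4] at h5
        exact hc w h1 ((hF i).inj _ _ _ (fun e => h1 (g.injective (by rw [hp, ← e])))
          (Ne.symm h1) h5))
    rw [Finset.card_singleton] at h3
    omega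

end

end Pool.Agent.Lib.H45G
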