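import Pool.Agent.Lib.H45G.Squares
import Pool.Agent.Lib.H88M.Maximal

/-!
# H45G: the extremal families have large stabilisers
-/

set_option autoImplicit false

namespace Pool.Agent.Lib.H45G

open Pool.Agent.Lib.H97P Pool.Agent.Lib.H88M

variable {r : ℕ}

/-- The permutations `g` of the symbols with `f (g i) (g j) = g (f i j)` for all `f` in `S`. -/
def Aut (S : Finset (Fin r → Fin r → Fin r)) : Set (Equiv.Perm (Fin r)) :=
  {g | ∀ f ∈ S, ∀ i j, f (g i) (g j) = g (f i j)}

theorem inv_app (g : Equiv.Perm (Fin r)) (x : Fin r) : g⁻¹ (g x) = x := g.symm_apply_apply x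

theorem app_inv (g : Equiv.Perm (Fin r)) (x : Fin r) : g (g⁻¹ x) = x := g.apply_symm_apply x

theorem mul_mem {S : Finset (Fin r → Fin r → Fin r)} {g h : Equiv.Perm (Fin r)}
    (hg : g ∈ Aut S) (hh : h ∈ Aut S) : g * h ∈ Aut S := by
  intro f hf i j
  rw [Equiv.Perm.mul_apply, Equiv.Perm.mul_apply, Equiv.Perm.mul_apply, hg f hf, hh f hf]

theorem inv_mem {S : Finset (Fin r → Fin r → Fin r)} {g : Equiv.Perm (Fin r)}
    (hg : g ∈ Aut S) : g⁻¹ ∈ Aut S := by
  intro f hf i j
  have h := hg f hf (g⁻¹ i) (g⁻¹ j)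
  rw [app_inv, app_inv] at h
  rw [h, inv_app]

theorem ab_square_mul {F : Type*} [Field F] {s : F} (hs : s ≠ 0) (h : IsSquare s) (d : F) :
    ab (s * d) = s * ab d := by
  have key : IsSquare (s * d) ↔ IsSquare d := by
    constructor
    · intro h1
      have := h1.div h
      rwa [mul_div_cancel_left₀ d hs] at this
    · intro h1
      exact h.mul h1
  rcases ab_cases d with ⟨h1, h2⟩ | ⟨h1, h2⟩ <;>
    rcases ab_cases (s * d) with ⟨h3, h4⟩ | ⟨h3, h4⟩
  · rw [h2, h4]
  · exact absurd (key.2 h1) h3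
  · exact absurd (key.1 h3) h1
  · rw [h2, h4]; ring

theorem affine_mem {F : Type*} [Field F] [Fintype F] (hq : Fintype.card F % 4 = 3)
    (φ : Fin r ≃ F) {s : F} (hs : s ≠ 0)
    (h : IsSquare s) (b : F) {g : Equiv.Perm (Fin r)} (hg : ∀ i, φ (g i) = s * φ i + b) :
    g ∈ Aut (fam φ) := by
  intro f hf i j
  obtain ⟨l, -, hl⟩ := (mem_fam φ).1 hf
  have h2 := two_ne hq
  apply φ.injective
  rw [hl, hg, hg, hg, hl]
  unfold Pool.Agent.Lib.H97P.sq
  have : s * φ i + b - (s * φ j + b) = s * (φ i - φ j) := by ring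
  rw [this, ab_square_mul hs h]
  field_simp
  ring

/-- The group of common automorphisms of an extremal family is transitive on unordered pairs. -/
theorem fam_pairs {F : Type*} [Field F] [Fintype F] (hq : Fintype.card F % 4 = 3)
    (φ : Fin r ≃ F) {x y u v : Fin r} (hxy : x ≠ y) (huv : u ≠ v) :
    ∃ g ∈ Aut (fam φ), (g x = u ∧ g y = v) ∨ (g x = v ∧ g y = u) := by
  have h0 : φ x - φ y ≠ 0 := sub_ne_zero.2 fun h => hxy (φ.injective h)
  have h1 : φ u - φ v ≠ 0 := sub_ne_zero.2 fun h => huv (φ.injective h)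
  -- a square `s` gives the affine map
  have key : ∀ p q : Fin r, φ p - φ q ≠ 0 → IsSquare ((φ p - φ q) / (φ x - φ y)) →
      ∃ g ∈ Aut (fam φ), g x = p ∧ g y = q := by
    intro p q hpq hs
    set s := (φ p - φ q) / (φ x - φ y) with hsdef
    have hs0 : s ≠ 0 := div_ne_zero hpq h0
    have hsx : s * (φ x - φ y) = φ p - φ q := by rw [hsdef, div_mul_cancel₀ _ h0]
    let e : F ≃ F :=
      { toFun := fun t => s * t + (φ p - s * φ x)
        invFun := fun t => (t - (φ p - s * φ x)) / s
        left_inv := fun t => by field_simp; ring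
        right_inv := fun t => by field_simp; ring }
    let g : Equiv.Perm (Fin r) := (φ.trans e).trans φ.symm
    have hg : ∀ i, φ (g i) = s * φ i + (φ p - s * φ x) := by
      intro i
      show φ (φ.symm (e (φ i))) = _
      rw [φ.apply_symm_apply]
      rfl
    refine ⟨g, affine_mem hq φ hs0 hs _ hg, ?_, ?_⟩
    · apply φ.injective
      rw [hg]; ring
    · apply φ.injective
      rw [hg]
      linear_combination -hsx
  rcases isSquare_or hq ((φ u - φ v) / (φ x - φ y)) with h | h
  · obtain ⟨g, hg, h2, h3⟩ := key u v h1 h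
    exact ⟨g, hg, Or.inl ⟨h2, h3⟩⟩
  · have h4 : -((φ u - φ v) / (φ x - φ y)) = (φ v - φ u) / (φ x - φ y) := by
      rw [← neg_div, neg_sub]
    rw [h4] at h
    obtain ⟨g, hg, h2, h3⟩ := key v u (by rw [← neg_sub]; exact neg_ne_zero.2 h1) h
    exact ⟨g, hg, Or.inr ⟨h2, h3⟩⟩

/-- The orbit of `u` under the stabiliser of `c` in the group of common automorphisms. -/
def orb (S : Finset (Fin r → Fin r → Fin r)) (c u : Fin r) : Set (Fin r) :=
  {w | ∃ g ∈ Aut S, g c = c ∧ g u = w}

/-- `S` has a group of common automorphisms which is transitive on unordered pairs. -/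
def PairTransitive (S : Finset (Fin r → Fin r → Fin r)) : Prop :=
  ∀ x y u v : Fin r, x ≠ y → u ≠ v → ∃ g ∈ Aut S, (g x = u ∧ g y = v) ∨ (g x = v ∧ g y = u)

section
variable (S : Finset (Fin r → Fin r → Fin r))

theorem pair_orbit (hr : 5 ≤ r) (h : PairTransitive S) :
    ∃ c u, c ≠ u ∧ r ≤ 2 * (orb S c u).ncard + 1 := by
  classical
  set c : Fin r := ⟨0, by omega⟩ with hc
  set u : Fin r := ⟨1, by omega⟩ with hu
  have hcu : c ≠ u := by
    intro h
    have := congrArg Fin.val h
    simp [hc, hu] at this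
  set B : Set (Fin r) := {w | ∃ g ∈ Aut S, g u = c ∧ g c = w} with hB
  have hcov : ({c}ᶜ : Set (Fin r)) ⊆ orb S c u ∪ B := by
    intro w hw
    have hwc : c ≠ w := fun e => hw e.symm
    obtain ⟨g, hg, h1 | h1⟩ := h c u c w hcu hwc
    · exact Or.inl ⟨g, hg, h1.1, h1.2⟩
    · exact Or.inr ⟨g, hg, h1.2, h1.1⟩
  have h1 : ({c}ᶜ : Set (Fin r)).ncard + 1 = r := by
    have := Set.ncard_add_ncard_compl ({c} : Set (Fin r))
    rw [Set.ncard_singleton, Nat.card_eq_fintype_card, Fintype.card_fin] at this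
    omega
  have h2 := Set.ncard_le_ncard hcov (Set.toFinite _)
  have h3 := Set.ncard_union_le (orb S c u) B
  by_cases hA : r ≤ 2 * (orb S c u).ncard + 1
  · exact ⟨c, u, hcu, hA⟩
  · have hBne : B.Nonempty := by
      rw [Set.nonempty_iff_ne_empty]
      intro he
      rw [he, Set.union_empty] at h2
      omega
    obtain ⟨w, g, hg, hgu, hgc⟩ := hBne
    have hcw : c ≠ w := by
      intro e
      exact hcu (g.injective (hgc.trans (e.symm.trans hgu.symm)))
    refine ⟨c, w, hcw, ?_⟩
    have hsub : B ⊆ orb S c w := by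
      rintro w' ⟨g', hg', hg'u, hg'c⟩
      refine ⟨g' * g⁻¹, mul_mem hg' (inv_mem hg), ?_, ?_⟩
      · rw [Equiv.Perm.mul_apply, ← hgu, inv_app, hg'u, hgu]
      · rw [Equiv.Perm.mul_apply, ← hgc, inv_app, hg'c]
    have h4 := Set.ncard_le_ncard hsub (Set.toFinite _)
    omega

end

/-- The stabiliser of `a` and `b` in the group of common automorphisms. -/
def stabV {V C ι : Type*} (F : ι → V → V → C) (a b : V) : Set (Equiv.Perm V) :=
  {g | g ∈ Grp F ∧ g a = a ∧ g b = b}

theorem stab_main {V C ι : Type*} [Fintype V] [DecidableEq V] [Fintype ι] (F : ι → V → V → C)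
    (hF : ∀ i, OF (F i)) (ho : ∀ i j, i ≠ j → Ortho (F i) (F j)) (hV : 6 ≤ Fintype.card V)
    {a b : V} (hab : a ≠ b) : 2 ∣ Nat.card (Grp F) ∨
    (Fintype.card ι + 1) ^ 2 + 4 ≤ Fintype.card V ∨
    Fintype.card ι + (stabV F a b).ncard + 2 ≤ Fintype.card V := by
  classical
  by_cases h1 : ∃ g ∈ Grp F, g ≠ 1 ∧ g a = a ∧ g b = b ∧ ∃ u, u ≠ a ∧ u ≠ b ∧ g u = u
  · obtain ⟨g, hg, hg1, ha, hb, u, hua, hub, hu⟩ := h1
    rcases three_fixed F hF ho hg hg1 hab hua hub ha hb hu with h | h
    · right; left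
      rw [h]
      omega
    · right; left; exact h
  push Not at h1
  obtain ⟨u, hu⟩ : ∃ u, u ∉ ({a, b} : Finset V) := by
    by_contra hcon
    push Not at hcon
    have h1 : (Finset.univ : Finset V) ⊆ {a, b} := fun x _ => hcon x
    have h2 := (Finset.card_le_card h1).trans Finset.card_le_two
    rw [Finset.card_univ] at h2
    omega
  simp only [Finset.mem_insert, Finset.mem_singleton, not_or] at hu
  rcases orbit_main F hF ho hV hab hu.1 hu.2 with h | h | h
  · exact Or.inl h
  · exact Or.inr (Or.inl h)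
  · right; right
    have h2 : (stabV F a b).ncard ≤ (orbV F a b u).ncard := by
      apply Set.ncard_le_ncard_of_injOn (fun g => g u)
      · intro g hg
        exact ⟨g, hg.1, hg.2.1, hg.2.2, rfl⟩
      · intro g hg g' hg' hgg
        have e : ∀ x, g'⁻¹ (g' x) = x := fun x => g'.symm_apply_apply x
        by_contra hne
        refine h1 (g'⁻¹ * g) ((Grp F).mul_mem ((Grp F).inv_mem hg'.1) hg.1) ?_ ?_ ?_ u hu.1 hu.2 ?_
        · intro h3
          exact hne (inv_mul_eq_one.1 h3).symm
        · rw [Equiv.Perm.mul_apply, hg.2.1]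
          nth_rw 1 [← hg'.2.1]
          exact e a
        · rw [Equiv.Perm.mul_apply, hg.2.2]
          nth_rw 1 [← hg'.2.2]
          exact e b
        · rw [Equiv.Perm.mul_apply]
          have : g u = g' u := hgg
          rw [this]
          exact e u
    omega

theorem fam_stab {F : Type} [Field F] [Fintype F] (hr : 5 ≤ r) (hq : Fintype.card F % 4 = 3)
    (φ : Fin r ≃ F) : ∃ a b, a ≠ b ∧ r ≤ 2 * (stabV (famS (fam φ)) a b).ncard + 1 := by
  classical
  obtain ⟨c, u, hcu, h⟩ := pair_orbit (fam φ) hr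
    (fun x y u v hxy huv => fam_pairs hq φ hxy huv)
  refine ⟨none, some c, by simp, ?_⟩
  have h1 : (orb (fam φ) c u).ncard ≤ (stabV (famS (fam φ)) none (some c)).ncard := by
    have h2 : (some '' orb (fam φ) c u) ⊆
        (fun g : Equiv.Perm (Option (Fin r)) => g (some u)) ''
          stabV (famS (fam φ)) none (some c) := by
      rintro _ ⟨w, ⟨g, hg, hgc, hgu⟩, rfl⟩
      refine ⟨Equiv.optionCongr g, ⟨optionCongr_mem hg, rfl, ?_⟩, ?_⟩
      · exact congrArg some hgc
      · exact congrArg some hgu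
    have h3 := Set.ncard_le_ncard h2 (Set.toFinite _)
    rw [Set.ncard_image_of_injective _ (Option.some_injective _)] at h3
    exact h3.trans (Set.ncard_image_le (Set.toFinite _))
  omega

end Pool.Agent.Lib.H45G
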