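import Pool.Agent.Lib.H45G.Basic

/-!
# H45G: a common involution without fixed points
-/

set_option autoImplicit false

namespace Pool.Agent.Lib.H45G

open Finset

variable {V C ι : Type*} [Fintype V] [DecidableEq V] [DecidableEq C] [Fintype ι]

/-- The colours of the edges `{x, t x}`. -/
def Col (F : ι → V → V → C) (t : V → V) (i : ι) : Finset C :=
  univ.image fun x => F i x (t x)

/-- The number of the points `x` such that `{x, t x}` has a given colour. -/
def mult (F : ι → V → V → C) (t : V → V) (i : ι) (c : C) : ℕ :=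
  (univ.filter fun x => F i x (t x) = c).card

variable (F : ι → V → V → C) (hF : ∀ i, OF (F i))
  (ho : ∀ i j, i ≠ j → Ortho (F i) (F j)) (t : Equiv.Perm V)

theorem sum_mult (i : ι) : ∑ c ∈ Col F t i, mult F t i c = Fintype.card V := by
  unfold Col mult
  rw [← Finset.card_univ]
  exact (Finset.card_eq_sum_card_image (fun x => F i x (t x)) univ).symm

theorem sum_mult_sq (i : ι) : ∑ c ∈ Col F t i, mult F t i c ^ 2 =
    ∑ x : V, ∑ y : V, if F i y (t y) = F i x (t x) then 1 else 0 := by
  have h : ∀ x : V, (∑ y : V, if F i y (t y) = F i x (t x) then 1 else 0) =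
      mult F t i (F i x (t x)) := by
    intro x
    unfold mult
    rw [Finset.card_filter]
  simp_rw [h]
  rw [← Finset.sum_fiberwise_of_maps_to (s := (univ : Finset V)) (t := Col F t i)
    (g := fun x => F i x (t x)) (fun x _ => Finset.mem_image_of_mem _ (mem_univ x))]
  refine Finset.sum_congr rfl fun c _ => ?_
  rw [Finset.sum_congr rfl (g := fun _ => mult F t i c) (fun x hx => by
    rw [(Finset.mem_filter.1 hx).2])]
  rw [Finset.sum_const, smul_eq_mul, sq]
  rfl

include ho in
theorem A_bound (hfree : ∀ x, t x ≠ x) : ∑ i : ι, ∑ c ∈ Col F t i, mult F t i c ^ 2 ≤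
    Fintype.card V * (2 * Fintype.card ι + (Fintype.card V - 2)) := by
  classical
  simp_rw [sum_mult_sq]
  rw [Finset.sum_comm, ← Finset.card_univ (α := V), ← smul_eq_mul, ← Finset.sum_const]
  refine Finset.sum_le_sum fun x _ => ?_
  rw [Finset.sum_comm]
  have h1 : ∀ y : V, (∑ i : ι, if F i y (t y) = F i x (t x) then 1 else 0) ≤
      (if y ∈ ({x, t x} : Finset V) then Fintype.card ι else 0) +
      (if y ∈ ({x, t x} : Finset V) then 0 else 1) := by
    intro y
    rw [← Finset.card_filter]
    by_cases hy : y ∈ ({x, t x} : Finset V)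
    · rw [if_pos hy, if_pos hy, add_zero, ← Finset.card_univ]
      exact Finset.card_le_card (Finset.filter_subset _ _)
    · rw [if_neg hy, if_neg hy, zero_add, Finset.card_le_one]
      intro i hi j hj
      rw [Finset.mem_filter] at hi hj
      by_contra hne
      simp only [Finset.mem_insert, Finset.mem_singleton, not_or] at hy
      rcases ho i j hne y (t y) x (t x) (Ne.symm (hfree y)) (Ne.symm (hfree x)) hi.2 hj.2 with
        ⟨e, _⟩ | ⟨e, _⟩
      · exact hy.1 e
      · exact hy.2 e
  refine (Finset.sum_le_sum fun y _ => h1 y).trans ?_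
  rw [Finset.sum_add_distrib]
  have h2 : (∑ y : V, if y ∈ ({x, t x} : Finset V) then Fintype.card ι else 0) =
      2 * Fintype.card ι := by
    rw [← Finset.sum_filter, Finset.sum_const, smul_eq_mul]
    congr 1
    rw [Finset.filter_mem_eq_inter, Finset.univ_inter, Finset.card_pair (Ne.symm (hfree x))]
  have h3 : (∑ y : V, if y ∈ ({x, t x} : Finset V) then 0 else 1) = Fintype.card V - 2 := by
    have h4 := Finset.card_add_card_compl ({x, t x} : Finset V)
    rw [Finset.card_pair (Ne.symm (hfree x))] at h4
    have h5 : (∑ y : V, if y ∈ ({x, t x} : Finset V) then 0 else 1) =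
        ({x, t x} : Finset V)ᶜ.card := by
      rw [Finset.card_eq_sum_ones, ← Finset.sum_filter_add_sum_filter_not univ
        (fun y => y ∈ ({x, t x} : Finset V))]
      rw [Finset.sum_ite_of_true (fun y hy => (Finset.mem_filter.1 hy).2),
        Finset.sum_ite_of_false (fun y hy => (Finset.mem_filter.1 hy).2)]
      simp only [Finset.sum_const_zero, zero_add]
      refine Finset.sum_congr ?_ fun _ _ => rfl
      ext y
      simp
    rw [h5]
    omega
  rw [h2, h3, Finset.card_univ]

include hF ho in
theorem N_bound (hg : t ∈ Grp F) (hfree : ∀ x, t x ≠ x) (h2 : ∀ x, t (t x) = x)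
    (hV : 0 < Fintype.card V) :
    ∑ i : ι, (Col F t i).card ≤ Fintype.card ι + (Fintype.card V - 2) := by
  classical
  -- the count at a point
  have h4 : ∀ i : ι, ∀ a : V, (Col F t i).card ≤
      (∑ b : V, if b ≠ a ∧ b ≠ t a ∧ F i a b ∈ Col F t i then 1 else 0) + 1 := by
    intro i a
    rw [← Finset.card_filter]
    have hex : ∀ c : C, ∃ b, (c ∈ (Col F t i).erase (F i a (t a)) →
        b ≠ a ∧ b ≠ t a ∧ F i a b = c) := by
      intro c
      by_cases hc : c ∈ (Col F t i).erase (F i a (t a))
      · rw [Finset.mem_erase] at hc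
        obtain ⟨x, _, hx⟩ := Finset.mem_image.1 hc.2
        have hxt : x ≠ t x := Ne.symm (hfree x)
        have hax : a ≠ x := by
          rintro rfl
          exact hc.1 hx.symm
        have hatx : a ≠ t x := by
          rintro rfl
          apply hc.1
          rw [h2, (hF i).symm]
          exact hx.symm
        obtain ⟨b, hb1, _, _, hb4⟩ := partner F hF (i := i) hxt hax hatx
        refine ⟨b, fun _ => ⟨hb1, ?_, hb4.trans hx⟩⟩
        rintro rfl
        exact hc.1 (hb4.trans hx).symm
      · exact ⟨a, fun h => absurd h hc⟩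
    choose p hp using hex
    have h5 : ((Col F t i).erase (F i a (t a))).card ≤
        (univ.filter fun b => b ≠ a ∧ b ≠ t a ∧ F i a b ∈ Col F t i).card := by
      apply Finset.card_le_card_of_injOn p
      · intro c hc
        obtain ⟨e1, e2, e3⟩ := hp c hc
        rw [Finset.mem_coe, Finset.mem_filter]
        refine ⟨mem_univ _, e1, e2, ?_⟩
        rw [e3]
        exact Finset.mem_of_mem_erase hc
      · intro c hc c' hc' h
        rw [← (hp c hc).2.2, ← (hp c' hc').2.2, h]
    have h6 := Finset.pred_card_le_card_erase (s := Col F t i) (a := F i a (t a))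
    omega
  -- each pair belongs to at most one member
  have h5 : ∀ a b : V, (∑ i : ι, if b ≠ a ∧ b ≠ t a ∧ F i a b ∈ Col F t i then 1 else 0) ≤
      if b ∈ ({a, t a} : Finset V) then 0 else 1 := by
    intro a b
    rw [← Finset.card_filter]
    by_cases hb : b ∈ ({a, t a} : Finset V)
    · rw [if_pos hb]
      simp only [Finset.mem_insert, Finset.mem_singleton] at hb
      rw [Finset.filter_false_of_mem]
      · simp
      · intro i _ h
        rcases hb with hb | hb
        · exact h.1 hb
        · exact h.2.1 hb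
    · rw [if_neg hb, Finset.card_le_one]
      have key : ∀ i, b ≠ a ∧ b ≠ t a ∧ F i a b ∈ Col F t i →
          F i a b = F i (t a) (t b) := by
        intro i h
        obtain ⟨x, _, hx⟩ := Finset.mem_image.1 h.2.2
        have h6 := grp_app hg (Ne.symm (hfree x)) (Ne.symm h.1) hx
        rw [h2, (hF i).symm (t x), hx] at h6
        exact h6
      intro i hi j hj
      rw [Finset.mem_filter] at hi hj
      by_contra hne
      have hab : a ≠ b := Ne.symm hi.2.1
      have htab : t a ≠ t b := fun e => hab (t.injective e)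
      rcases ho i j hne a b (t a) (t b) hab htab (key i hi.2) (key j hj.2) with ⟨e, _⟩ | ⟨_, e⟩
      · exact hfree a e.symm
      · exact hi.2.2.1 e
  have h6 : ∑ i : ι, ∑ a : V, (Col F t i).card ≤
      Fintype.card V * (Fintype.card V - 2) + Fintype.card ι * Fintype.card V := by
    calc ∑ i : ι, ∑ a : V, (Col F t i).card
        ≤ ∑ i : ι, ∑ a : V,
          ((∑ b : V, if b ≠ a ∧ b ≠ t a ∧ F i a b ∈ Col F t i then 1 else 0) + 1) :=
          Finset.sum_le_sum fun i _ => Finset.sum_le_sum fun a _ => h4 i a
      _ = (∑ a : V, ∑ b : V, ∑ i : ι,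
            if b ≠ a ∧ b ≠ t a ∧ F i a b ∈ Col F t i then 1 else 0) +
          Fintype.card ι * Fintype.card V := by
          simp_rw [Finset.sum_add_distrib]
          congr 1
          · rw [Finset.sum_comm]
            refine Finset.sum_congr rfl fun a _ => ?_
            rw [Finset.sum_comm]
          · simp
      _ ≤ (∑ a : V, ∑ b : V, if b ∈ ({a, t a} : Finset V) then 0 else 1) +
          Fintype.card ι * Fintype.card V := by
          gcongr with a _ b _
          exact h5 a b
      _ ≤ Fintype.card V * (Fintype.card V - 2) + Fintype.card ι * Fintype.card V := by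
          gcongr
          rw [← Finset.card_univ (α := V), ← smul_eq_mul, ← Finset.sum_const]
          refine Finset.sum_le_sum fun a _ => ?_
          have h7 := Finset.card_add_card_compl ({a, t a} : Finset V)
          rw [Finset.card_pair (Ne.symm (hfree a))] at h7
          have h8 : (∑ y : V, if y ∈ ({a, t a} : Finset V) then 0 else 1) =
              ({a, t a} : Finset V)ᶜ.card := by
            rw [Finset.card_eq_sum_ones, ← Finset.sum_filter_add_sum_filter_not univ
              (fun y => y ∈ ({a, t a} : Finset V))]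
            rw [Finset.sum_ite_of_true (fun y hy => (Finset.mem_filter.1 hy).2),
              Finset.sum_ite_of_false (fun y hy => (Finset.mem_filter.1 hy).2)]
            simp only [Finset.sum_const_zero, zero_add]
            refine Finset.sum_congr ?_ fun _ _ => rfl
            ext y
            simp
          rw [h8, Finset.card_univ]
          omega
  have h7 : ∑ i : ι, ∑ _a : V, (Col F t i).card = Fintype.card V * ∑ i : ι, (Col F t i).card := by
    rw [Finset.mul_sum]
    refine Finset.sum_congr rfl fun i _ => ?_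
    rw [Finset.sum_const, smul_eq_mul, Finset.card_univ]
  rw [h7] at h6
  have h8 : Fintype.card V * ∑ i : ι, (Col F t i).card ≤
      Fintype.card V * (Fintype.card ι + (Fintype.card V - 2)) := by
    rw [mul_add, mul_comm (Fintype.card V) (Fintype.card ι)]
    omega
  exact Nat.le_of_mul_le_mul_left h8 hV

include hF ho in
/-- A common involution without fixed points: the family has about `√|V|` members at most. -/
theorem free_involution (hg : t ∈ Grp F) (hfree : ∀ x, t x ≠ x) (h2 : ∀ x, t (t x) = x)
    (hV : 3 ≤ Fintype.card V) :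
    Fintype.card ι * Fintype.card ι ≤ 3 * Fintype.card ι + (Fintype.card V - 2) := by
  classical
  set k := Fintype.card ι with hk
  obtain ⟨w, hw⟩ : ∃ w, Fintype.card V = w + 2 := ⟨Fintype.card V - 2, by omega⟩
  have hA := A_bound F ho t hfree
  have hN := N_bound F hF ho t hg hfree h2 (by omega)
  set T : Finset ((_ : ι) × C) := (univ : Finset ι).sigma fun i => Col F t i with hT
  have hcard : T.card = ∑ i : ι, (Col F t i).card := by rw [hT, Finset.card_sigma]
  have hsum : ∑ p ∈ T, mult F t p.1 p.2 = k * Fintype.card V := by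
    rw [hT, Finset.sum_sigma]
    simp_rw [sum_mult]
    rw [Finset.sum_const, smul_eq_mul, Finset.card_univ]
  have hsq : ∑ p ∈ T, mult F t p.1 p.2 ^ 2 = ∑ i : ι, ∑ c ∈ Col F t i, mult F t i c ^ 2 := by
    rw [hT, Finset.sum_sigma]
  have hCS : ((k : ℤ) * Fintype.card V) ^ 2 ≤
      (T.card : ℤ) * ((∑ p ∈ T, mult F t p.1 p.2 ^ 2 : ℕ) : ℤ) := by
    have h := sq_sum_le_card_mul_sum_sq (s := T) (f := fun p => (mult F t p.1 p.2 : ℤ))
    have h1 : (∑ p ∈ T, (mult F t p.1 p.2 : ℤ)) = (k : ℤ) * Fintype.card V := by
      rw [← Nat.cast_sum, hsum]; push_cast; rfl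
    rw [h1] at h
    push_cast
    exact h
  rw [hsq] at hCS
  rw [hcard] at hCS
  rw [hw] at hA hN hCS ⊢
  simp only [Nat.add_sub_cancel] at hA hN ⊢
  have h1 : ((∑ i : ι, (Col F t i).card : ℕ) : ℤ) *
      ((∑ i : ι, ∑ c ∈ Col F t i, mult F t i c ^ 2 : ℕ) : ℤ) ≤
      ((k + w : ℕ) : ℤ) * (((w + 2) * (2 * k + w) : ℕ) : ℤ) := by
    exact_mod_cast Nat.mul_le_mul hN hA
  have h3 := hCS.trans h1
  push_cast at h3
  have hwpos : (0 : ℤ) < w := by
    have : 0 < w := by omega
    exact_mod_cast this
  have h4 : (k : ℤ) ^ 2 * (w + 2) ≤ (k + w) * (2 * k + w) := by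
    have h5 : (0 : ℤ) < (w : ℤ) + 2 := by linarith
    have h6 : ((k : ℤ) ^ 2 * (w + 2)) * (w + 2) ≤ ((k + w) * (2 * k + w)) * (w + 2) := by
      nlinarith [h3]
    exact le_of_mul_le_mul_right h6 h5
  have h7 : ((k : ℤ) * k) * w ≤ (3 * k + w) * w := by nlinarith [h4]
  have h8 := le_of_mul_le_mul_right h7 hwpos
  exact_mod_cast h8

end Pool.Agent.Lib.H45G
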