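import Pool.Agent.Lib.H45G.Order

/-!
# H45G: common automorphisms of odd prime order without fixed points
-/

set_option autoImplicit false

namespace Pool.Agent.Lib.H45G

variable {V C ι : Type*} [Fintype V] [DecidableEq V] [DecidableEq C] [Fintype ι]

variable (F : ι → V → V → C) (hF : ∀ i, OF (F i))
  (ho : ∀ i j, i ≠ j → Ortho (F i) (F j))

include hF in
/-- At every point at least `p - 1` of the factors are invariant. -/
theorem many_invariant {g : Equiv.Perm V} (hg : g ∈ Grp F) {p : ℕ} (hp : p.Prime)
    (hgp : g ^ p = 1) (hfree : ∀ x, g x ≠ x) (i : ι) (x : V) :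
    p ≤ (Finset.univ.filter fun b => b ≠ x ∧ F i x b = F i (g x) (g b)).card + 1 := by
  classical
  have : Fact p.Prime := ⟨hp⟩
  -- the permutation of the factors, read at the point `x`
  have hex : ∀ b : {b // b ≠ x}, ∃ b' : {b // b ≠ x}, F i x b' = F i (g x) (g b) := by
    rintro ⟨b, hb⟩
    by_cases hgb : g b = x
    · exact ⟨⟨g x, hfree x⟩, by rw [hgb, (hF i).symm]⟩
    · have hne : g x ≠ g b := fun e => hb (g.injective e).symm
      obtain ⟨w, h1, _, _, h4⟩ := partner F hF (i := i) hne (Ne.symm (hfree x)) (Ne.symm hgb)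
      exact ⟨⟨w, h1⟩, h4⟩
  choose σ hσ using hex
  have hpow : ∀ (n : ℕ) (b : {b // b ≠ x}), F i x ((σ^[n] b : {b // b ≠ x}) : V) =
      F i ((g ^ n) x) ((g ^ n) b) := by
    intro n
    induction n with
    | zero => intro b; rfl
    | succ n ih =>
      intro b
      rw [Function.iterate_succ_apply', hσ, pow_succ', Equiv.Perm.mul_apply,
        Equiv.Perm.mul_apply]
      exact grp_app hg (Ne.symm (σ^[n] b).2) (fun e => b.2 ((g ^ n).injective e).symm) (ih b)
  have hinj : Function.Injective σ := by
    intro b b' h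
    have h1 := hσ b
    rw [h, hσ b'] at h1
    have h2 := (hF i).inj _ _ _ (fun e => b'.2 (g.injective e).symm)
      (fun e => b.2 (g.injective e).symm) h1
    exact Subtype.ext (g.injective h2).symm
  let τ : Equiv.Perm {b // b ≠ x} := Equiv.ofBijective σ (Finite.injective_iff_bijective.1 hinj)
  have hτσ : ∀ b, τ b = σ b := fun b => rfl
  have hτp : τ ^ p ^ 1 = 1 := by
    rw [pow_one]
    apply Equiv.ext
    intro b
    have h1 := hpow p b
    rw [hgp] at h1
    have h2 : ((σ^[p] b : {b // b ≠ x}) : V) = b :=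
      (hF i).inj _ _ _ (Ne.symm (σ^[p] b).2) (Ne.symm b.2) h1
    have h3 : (⇑(τ ^ p) : {b // b ≠ x} → {b // b ≠ x}) = σ^[p] := rfl
    rw [h3]
    exact Subtype.ext h2
  have hm := Equiv.Perm.card_compl_support_modEq hτp
  have hgm := Equiv.Perm.card_compl_support_modEq (σ := g) (p := p) (n := 1)
    (by rw [pow_one]; exact hgp)
  have hg0 : g.supportᶜ = ∅ := by
    ext y
    simp [hfree y]
  rw [hg0, Finset.card_empty] at hgm
  have hdvd : p ∣ Fintype.card V := (Nat.modEq_zero_iff_dvd).1 hgm.symm
  have hcard : Fintype.card {b // b ≠ x} + 1 = Fintype.card V := by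
    rw [Fintype.card_subtype_compl, Fintype.card_subtype_eq]
    have : 0 < Fintype.card V := Fintype.card_pos_iff.2 ⟨x⟩
    omega
  have hN : (τ.supportᶜ).card ≤
      (Finset.univ.filter fun b => b ≠ x ∧ F i x b = F i (g x) (g b)).card := by
    apply Finset.card_le_card_of_injOn (fun b : {b // b ≠ x} => (b : V))
    · intro b hb
      rw [Finset.mem_coe, Finset.mem_compl, Equiv.Perm.mem_support, not_not] at hb
      rw [Finset.mem_coe, Finset.mem_filter]
      refine ⟨Finset.mem_univ _, b.2, ?_⟩
      rw [← hσ b, ← hτσ, hb]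
    · intro b _ b' _ h
      exact Subtype.ext h
  have h1 : p ∣ (τ.supportᶜ).card + 1 := by
    have h2 : (τ.supportᶜ).card + 1 ≡ Fintype.card {b // b ≠ x} + 1 [MOD p] :=
      Nat.ModEq.add_right 1 hm
    rw [hcard] at h2
    exact (Nat.modEq_zero_iff_dvd).1 (h2.trans ((Nat.modEq_zero_iff_dvd).2 hdvd))
  have h2 := Nat.le_of_dvd (Nat.succ_pos _) h1
  omega

include hF ho in
/-- A common automorphism of odd prime order `p` without fixed points. -/
theorem free_odd {g : Equiv.Perm V} (hg : g ∈ Grp F) {p : ℕ} (hp : p.Prime) (hp2 : p ≠ 2)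
    (hgp : g ^ p = 1) (hfree : ∀ x, g x ≠ x) (hV : Nonempty V) :
    (Fintype.card ι + 1) * (p - 1) + 1 ≤ Fintype.card V := by
  classical
  obtain ⟨x⟩ := hV
  have hp1 := hp.one_lt
  -- powers of `g` have no fixed points
  have hord : ∀ y, ∀ m : ℕ, (g ^ m) y = y → p ∣ m := by
    intro y m hm
    by_contra hdvd
    have hco : Nat.Coprime m p := by
      rw [Nat.coprime_comm]
      exact (Nat.Prime.coprime_iff_not_dvd hp).2 hdvd
    obtain ⟨u, v, huv⟩ : ∃ u v : ℕ, m * u = p * v + 1 := by
      obtain ⟨u, hu⟩ := Nat.exists_mul_mod_eq_one_of_coprime hco hp1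
      refine ⟨u, m * u / p, ?_⟩
      have := Nat.div_add_mod (m * u) p
      omega
    have h1 : (g ^ (m * u)) y = y := by
      rw [pow_mul]
      have : ∀ n : ℕ, ((g ^ m) ^ n) y = y := by
        intro n
        induction n with
        | zero => rfl
        | succ n ih => rw [pow_succ', Equiv.Perm.mul_apply, ih, hm]
      exact this u
    rw [huv, pow_add, pow_mul, hgp, one_pow, one_mul, pow_one] at h1
    exact hfree y h1
  set N : ι → Finset V := fun i =>
    Finset.univ.filter fun b => b ≠ x ∧ F i x b = F i (g x) (g b) with hN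
  have hNcard : ∀ i, p ≤ (N i).card + 1 := fun i => many_invariant F hF hg hp hgp hfree i x
  have hdisj : ∀ i j, i ≠ j → Disjoint (N i) (N j) := by
    intro i j hij
    rw [Finset.disjoint_left]
    intro b hb hb'
    rw [hN, Finset.mem_filter] at hb hb'
    have hbx : x ≠ b := Ne.symm hb.2.1
    rcases ho i j hij x b (g x) (g b) hbx (fun e => hbx (g.injective e)) hb.2.2 hb'.2.2 with
      ⟨e, _⟩ | ⟨e, e'⟩
    · exact hfree x e.symm
    · have h1 : (g ^ 2) x = x := by
        rw [sq, Equiv.Perm.mul_apply, ← e', ← e]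
      have h2 := hord x 2 h1
      have h3 := Nat.le_of_dvd (by norm_num) h2
      omega
  -- the orbit of `x`
  set O : Finset V := (Finset.range p).image fun j => (g ^ j) x with hO
  have hOcard : O.card = p := by
    rw [hO, Finset.card_image_of_injOn, Finset.card_range]
    intro j hj k hk h
    rw [Finset.mem_coe, Finset.mem_range] at hj hk
    have key : ∀ j k : ℕ, j < p → k < p → j ≤ k → (g ^ j) x = (g ^ k) x → j = k := by
      intro j k _ hk hjk h
      obtain ⟨d, rfl⟩ := Nat.exists_eq_add_of_le hjk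
      rw [pow_add, Equiv.Perm.mul_apply] at h
      have h1 := (g ^ j).injective h
      have h2 := hord x d h1.symm
      rcases Nat.eq_zero_or_pos d with hd | hd
      · omega
      · have := Nat.le_of_dvd hd h2
        omega
    rcases le_total j k with hjk | hjk
    · exact key j k hj hk hjk h
    · exact (key k j hk hj hjk h.symm).symm
  have hNO : ∀ i, Disjoint (N i) O := by
    intro i
    rw [Finset.disjoint_left]
    intro b hb hbO
    rw [hN, Finset.mem_filter] at hb
    obtain ⟨j, hj, rfl⟩ := Finset.mem_image.1 hbO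
    rw [Finset.mem_range] at hj
    have hne : x ≠ (g ^ j) x := Ne.symm hb.2.1
    have h1 : ∀ n : ℕ, F i x ((g ^ j) x) = F i ((g ^ n) x) ((g ^ n) ((g ^ j) x)) := by
      intro n
      induction n with
      | zero => rfl
      | succ n ih =>
        have h2 := grp_app hg hne (fun e => hne ((g ^ n).injective e)) ih
        rw [← hb.2.2] at h2
        rw [h2, pow_succ', Equiv.Perm.mul_apply, Equiv.Perm.mul_apply]
    have h3 := h1 j
    rw [(hF i).symm x] at h3
    have h4 : x = (g ^ j) ((g ^ j) x) :=
      (hF i).inj _ _ _ (Ne.symm hne) (fun e => hne ((g ^ j).injective e)) h3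
    rw [← Equiv.Perm.mul_apply, ← pow_add] at h4
    have h5 := hord x (j + j) h4.symm
    have h6 : p ∣ 2 * j := by rwa [two_mul]
    rcases (Nat.Prime.dvd_mul hp).1 h6 with h7 | h7
    · exact hp2 ((Nat.prime_dvd_prime_iff_eq hp Nat.prime_two).1 h7)
    · rcases Nat.eq_zero_or_pos j with hj0 | hj0
      · rw [hj0] at hne
        exact hne rfl
      · have := Nat.le_of_dvd hj0 h7
        omega
  have h1 : (Finset.univ.biUnion N ∪ O).card ≤ Fintype.card V := Finset.card_le_univ _
  rw [Finset.card_union_of_disjoint (by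
    rw [Finset.disjoint_biUnion_left]
    exact fun i _ => hNO i), Finset.card_biUnion (fun i _ j _ hij => hdisj i j hij), hOcard] at h1
  have h2 : Fintype.card ι * (p - 1) ≤ ∑ i : ι, (N i).card := by
    rw [← Finset.card_univ, ← smul_eq_mul, ← Finset.sum_const]
    refine Finset.sum_le_sum fun i _ => ?_
    have := hNcard i
    omega
  have h3 : (Fintype.card ι + 1) * (p - 1) = Fintype.card ι * (p - 1) + (p - 1) := by ring
  omega

end Pool.Agent.Lib.H45G
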