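import Pool.Agent.Lib.H45G.Free

/-!
# H45G: groups of even order, orbits of edge stabilisers
-/

set_option autoImplicit false

namespace Pool.Agent.Lib.H45G

variable {V C ι : Type*} [Fintype V] [DecidableEq V] [Fintype ι]

/-- The orbit of `u` under the stabiliser of `a` and `b` in the group of common automorphisms. -/
def orbV (F : ι → V → V → C) (a b u : V) : Set V :=
  {w | ∃ g ∈ Grp F, g a = a ∧ g b = b ∧ g u = w}

variable (F : ι → V → V → C) (hF : ∀ i, OF (F i))
  (ho : ∀ i j, i ≠ j → Ortho (F i) (F j))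

theorem even_iff : 2 ∣ Nat.card (Grp F) ↔ ∃ g ∈ Grp F, g ≠ 1 ∧ g * g = 1 := by
  constructor
  · intro h
    obtain ⟨x, hx⟩ := exists_prime_orderOf_dvd_card' 2 h
    refine ⟨x.1, x.2, ?_, ?_⟩
    · intro h1
      have : x = 1 := Subtype.ext h1
      rw [this, orderOf_one] at hx
      omega
    · have h2 := pow_orderOf_eq_one x
      rw [hx, sq] at h2
      exact congrArg Subtype.val h2
  · rintro ⟨g, hg, hg1, hg2⟩
    have h : orderOf (⟨g, hg⟩ : Grp F) = 2 := by
      apply orderOf_eq_prime
      · rw [sq]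
        exact Subtype.ext hg2
      · intro h
        exact hg1 (congrArg Subtype.val h)
    rw [← h]
    exact orderOf_dvd_natCard _

include hF ho in
theorem even_order (hV : 6 ≤ Fintype.card V) (h : 2 ∣ Nat.card (Grp F)) :
    Fintype.card ι * Fintype.card ι ≤ 3 * Fintype.card ι + (Fintype.card V - 2) := by
  classical
  obtain ⟨g, hg, hg1, hg2⟩ := (even_iff F).1 h
  have h2 : ∀ x, g (g x) = x := by
    intro x
    have := congrArg (fun e : Equiv.Perm V => e x) hg2
    simpa using this
  by_cases hfix : ∃ a, g a = a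
  · obtain ⟨a, ha⟩ := hfix
    rcases involution_fixed F hF ho hg hg1 h2 ha with h | h
    · have h3 : Fintype.card ι * Fintype.card ι ≤ 1 * Fintype.card ι :=
        Nat.mul_le_mul_right _ h
      omega
    · exact (sq_bound h).2
  · push Not at hfix
    exact free_involution F hF ho g hg hfix h2 (by omega)

include hF ho in
theorem orbit_main (hV : 6 ≤ Fintype.card V) {a b u : V} (hab : a ≠ b) (hua : u ≠ a)
    (hub : u ≠ b) : 2 ∣ Nat.card (Grp F) ∨ (Fintype.card ι + 1) ^ 2 + 4 ≤ Fintype.card V ∨
    Fintype.card ι + (orbV F a b u).ncard + 2 ≤ Fintype.card V := by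
  classical
  by_cases h1 : ∃ g ∈ Grp F, g ≠ 1 ∧ g a = a ∧ g b = b ∧ g u = u
  · obtain ⟨g, hg, hg1, ha, hb, hu⟩ := h1
    rcases three_fixed F hF ho hg hg1 hab hua hub ha hb hu with h | h
    · right; left
      rw [h]
      omega
    · right; left; exact h
  by_cases h2 : ∃ g ∈ Grp F, g ≠ 1 ∧ g * g = 1
  · left; exact (even_iff F).2 h2
  right; right
  push Not at h1 h2
  have h := orbit_bound F hF ho hab hua hub (orbV F a b u).toFinite.toFinset
    (fun w hw => by
      rw [Set.Finite.mem_toFinset] at hw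
      exact hw)
    (by
      rw [Set.Finite.mem_toFinset]
      exact ⟨1, (Grp F).one_mem, rfl, rfl, rfl⟩)
    (by
      intro g hg ha hb hu
      by_contra hne
      exact h1 g hg hne ha hb hu)
    (by
      intro g hg hgg
      by_contra hne
      exact h2 g hg hne hgg)
  rwa [← Set.ncard_eq_toFinset_card] at h

/-- A group which is transitive on an even number of points has even order. -/
theorem even_of_transitive (hV : 2 ∣ Fintype.card V) (hne : Nonempty V)
    (ht : ∀ x y, ∃ g ∈ Grp F, g x = y) : 2 ∣ Nat.card (Grp F) := by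
  classical
  obtain ⟨x⟩ := hne
  have h := MulAction.card_orbit_mul_card_stabilizer_eq_card_group (Grp F) x
  have h1 : MulAction.orbit (Grp F) x = Set.univ := by
    rw [Set.eq_univ_iff_forall]
    intro y
    obtain ⟨g, hg, hgx⟩ := ht x y
    exact ⟨⟨g, hg⟩, hgx⟩
  have h2 : Fintype.card (MulAction.orbit (Grp F) x) = Fintype.card V := by
    rw [← Nat.card_eq_fintype_card, ← Nat.card_eq_fintype_card, h1, Nat.card_univ]
  rw [h2] at h
  rw [Nat.card_eq_fintype_card, ← h]
  exact Dvd.dvd.mul_right hV _

end Pool.Agent.Lib.H45G
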