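import Pool.Agent.Lib.H45G.Order
import Pool.Agent.Lib.H97P.Parity

/-!
# H45G: symmetric Latin squares as one-factorizations of the complete graph on `r + 1` points
-/

set_option autoImplicit false

namespace Pool.Agent.Lib.H45G

open Pool.Agent.Lib.H97P

variable {r : ℕ}

/-- The one-factorization of the complete graph on the points `some i` and `none` (the point
infinity) of a square `f`: the pair `{i, j}` has the colour `f i j`, the pair `{i, ∞}` the
colour `i`. (The value at `(none, none)` is a placeholder.) -/
def ext (f : Fin r → Fin r → Fin r) : Option (Fin r) → Option (Fin r) → Option (Fin r)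
  | some i, some j => some (f i j)
  | some i, none => some i
  | none, some j => some j
  | none, none => none

theorem ne_left {f : Fin r → Fin r → Fin r} (hf : IsSLS f) {i j : Fin r} (h : i ≠ j) :
    f i j ≠ i := fun e => h ((hf.row i).1 ((hf.diag i).trans e.symm))

theorem ext_of {f : Fin r → Fin r → Fin r} (hf : IsSLS f) : OF (ext f) where
  symm := by
    rintro (_ | i) (_ | j)
    · rfl
    · rfl
    · rfl
    · exact congrArg some (hf.symm i j)
  inj := by
    rintro (_ | i) (_ | j) (_ | k) h1 h2 h
    · rfl
    · exact absurd rfl h1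
    · exact absurd rfl h2
    · exact h
    · rfl
    · have h' : i = f i k := Option.some.inj h
      exact absurd h'.symm (ne_left hf fun e => h2 (congrArg some e))
    · have h' : f i j = i := Option.some.inj h
      exact absurd h' (ne_left hf fun e => h1 (congrArg some e))
    · have h' : f i j = f i k := Option.some.inj h
      exact congrArg some ((hf.row i).1 h')
  ex := by
    intro a b u hab _ _
    have hc : ∃ c, ext f a b = some c := by
      rcases a with _ | i <;> rcases b with _ | j
      · exact absurd rfl hab
      · exact ⟨j, rfl⟩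
      · exact ⟨i, rfl⟩
      · exact ⟨f i j, rfl⟩
    obtain ⟨c, hc⟩ := hc
    rw [hc]
    rcases u with _ | i
    · exact ⟨some c, by simp, rfl⟩
    · by_cases hi : c = i
      · exact ⟨none, by simp, by rw [hi]; rfl⟩
      · obtain ⟨j, hj⟩ := (hf.row i).2 c
        refine ⟨some j, ?_, congrArg some hj⟩
        intro e
        have e' : j = i := Option.some.inj e
        rw [e', hf.diag] at hj
        exact hi hj.symm

theorem orth_any {f g : Fin r → Fin r → Fin r} (hf : IsSLS f) (hg : IsSLS g) (h : Orth f g)
    {i j k l : Fin r} (h1 : f i j = f k l) (h2 : g i j = g k l) :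
    (i = k ∧ j = l) ∨ (i = l ∧ j = k) := by
  rcases le_total i j with hij | hij <;> rcases le_total k l with hkl | hkl
  · exact Or.inl (h i j k l hij hkl h1 h2)
  · rw [hf.symm k l] at h1
    rw [hg.symm k l] at h2
    exact Or.inr (h i j l k hij hkl h1 h2)
  · rw [hf.symm i j] at h1
    rw [hg.symm i j] at h2
    have := h j i k l hij hkl h1 h2
    exact Or.inr ⟨this.2, this.1⟩
  · rw [hf.symm i j, hf.symm k l] at h1
    rw [hg.symm i j, hg.symm k l] at h2
    have := h j i l k hij hkl h1 h2
    exact Or.inl ⟨this.2, this.1⟩

theorem orth_diag {f g : Fin r → Fin r → Fin r} (hf : IsSLS f) (hg : IsSLS g) (h : Orth f g)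
    {i j k : Fin r} (h1 : f i j = k) (h2 : g i j = k) : i = k ∧ j = k := by
  rcases orth_any hf hg h (k := k) (l := k) (by rw [h1, hf.diag]) (by rw [h2, hg.diag]) with
    h | h <;> exact h

theorem ext_ortho {f g : Fin r → Fin r → Fin r} (hf : IsSLS f) (hg : IsSLS g) (h : Orth f g) :
    Ortho (ext f) (ext g) := by
  rintro (_ | i) (_ | j) (_ | k) (_ | l) hab hcd h1 h2
  all_goals first
    | exact absurd rfl hab
    | exact absurd rfl hcd
    | skip
  · -- none j none l
    have e : j = l := Option.some.inj h1
    exact Or.inl ⟨rfl, congrArg some e⟩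
  · -- none j k none
    have e : j = k := Option.some.inj h1
    exact Or.inr ⟨rfl, congrArg some e⟩
  · -- none j k l
    have e1 : j = f k l := Option.some.inj h1
    have e2 : j = g k l := Option.some.inj h2
    have := orth_diag hf hg h e1.symm e2.symm
    exact absurd (congrArg some (this.1.trans this.2.symm)) hcd
  · -- i none none l
    have e : i = l := Option.some.inj h1
    exact Or.inr ⟨congrArg some e, rfl⟩
  · -- i none k none
    have e : i = k := Option.some.inj h1
    exact Or.inl ⟨congrArg some e, rfl⟩
  · -- i none k l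
    have e1 : i = f k l := Option.some.inj h1
    have e2 : i = g k l := Option.some.inj h2
    have := orth_diag hf hg h e1.symm e2.symm
    exact absurd (congrArg some (this.1.trans this.2.symm)) hcd
  · -- i j none l
    have e1 : f i j = l := Option.some.inj h1
    have e2 : g i j = l := Option.some.inj h2
    have := orth_diag hf hg h e1 e2
    exact absurd (congrArg some (this.1.trans this.2.symm)) hab
  · -- i j k none
    have e1 : f i j = k := Option.some.inj h1
    have e2 : g i j = k := Option.some.inj h2
    have := orth_diag hf hg h e1 e2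
    exact absurd (congrArg some (this.1.trans this.2.symm)) hab
  · -- i j k l
    have e1 : f i j = f k l := Option.some.inj h1
    have e2 : g i j = g k l := Option.some.inj h2
    rcases orth_any hf hg h e1 e2 with ⟨p, q⟩ | ⟨p, q⟩
    · exact Or.inl ⟨congrArg some p, congrArg some q⟩
    · exact Or.inr ⟨congrArg some p, congrArg some q⟩

/-- The family of the one-factorizations of the members of `S`. -/
def famS (S : Finset (Fin r → Fin r → Fin r)) (f : S) :
    Option (Fin r) → Option (Fin r) → Option (Fin r) := ext f.1

theorem famS_of {S : Finset (Fin r → Fin r → Fin r)} (hS : ∀ f ∈ S, IsSLS f) (f : S) :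
    OF (famS S f) := ext_of (hS f.1 f.2)

theorem famS_ortho {S : Finset (Fin r → Fin r → Fin r)} (hS : ∀ f ∈ S, IsSLS f)
    (ho : ∀ f ∈ S, ∀ g ∈ S, f ≠ g → Orth f g) (f g : S) (h : f ≠ g) :
    Ortho (famS S f) (famS S g) :=
  ext_ortho (hS f.1 f.2) (hS g.1 g.2) (ho f.1 f.2 g.1 g.2 fun e => h (Subtype.ext e))

theorem ext_map {f : Fin r → Fin r → Fin r} {g : Equiv.Perm (Fin r)}
    (hg : ∀ i j, f (g i) (g j) = g (f i j)) (a b : Option (Fin r)) :
    ext f (Equiv.optionCongr g a) (Equiv.optionCongr g b) = Equiv.optionCongr g (ext f a b) := by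
  rcases a with _ | i <;> rcases b with _ | j
  · rfl
  · rfl
  · rfl
  · exact congrArg some (hg i j)

theorem optionCongr_mem {S : Finset (Fin r → Fin r → Fin r)} {g : Equiv.Perm (Fin r)}
    (hg : ∀ f ∈ S, ∀ i j, f (g i) (g j) = g (f i j)) :
    Equiv.optionCongr g ∈ Grp (famS S) := by
  intro f a b c d _ _
  unfold famS
  rw [ext_map (hg f.1 f.2), ext_map (hg f.1 f.2)]
  exact (Equiv.optionCongr g).injective.eq_iff.symm

end Pool.Agent.Lib.H45G
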